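import Mathlib

set_option autoImplicit false

/-!
TH-1: Minkowski's theorem on linear forms.
-/

namespace Pool.Agent.Helper73.TH

open MeasureTheory in
theorem minkowski_linear {n : ℕ} (A : Matrix (Fin n) (Fin n) ℝ) (hA : A.det ≠ 0)
    (c : Fin n → ℝ) (hc : ∀ i, 0 < c i) (h : |A.det| < ∏ i, c i) :
    ∃ x : Fin n → ℤ, x ≠ 0 ∧ ∀ i, |∑ j, A i j * (x j : ℝ)| < c i := by
  set b := Pi.basisFun ℝ (Fin n) with hb
  set f : (Fin n → ℝ) →ₗ[ℝ] (Fin n → ℝ) := Matrix.toLin' A with hf
  have hdet : LinearMap.det f = A.det := by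
    rw [hf, LinearMap.det_toLin']
  set box : Set (Fin n → ℝ) := Set.pi Set.univ fun i => Set.Ioo (-c i) (c i) with hbox
  set S : Set (Fin n → ℝ) := f ⁻¹' box with hS
  have hvol : volume S = ENNReal.ofReal |A.det|⁻¹ * ∏ i, ENNReal.ofReal (2 * c i) := by
    rw [hS, Measure.addHaar_preimage_linearMap volume (by rw [hdet]; exact hA), hdet,
      Real.volume_pi_Ioo, abs_inv]
    congr 1
    refine Finset.prod_congr rfl fun i _ => ?_
    congr 1
    ring
  have hfund := ZSpan.isAddFundamentalDomain' b (volume : Measure (Fin n → ℝ))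
  have hcount : Countable (Submodule.span ℤ (Set.range b)).toAddSubgroup := by
    change Countable (Submodule.span ℤ (Set.range b))
    infer_instance
  have hF : volume (ZSpan.fundamentalDomain b) = 1 := by
    rw [hb, ZSpan.fundamentalDomain_pi_basisFun, Real.volume_pi_Ico]
    simp
  have hsymm : ∀ x ∈ S, -x ∈ S := by
    intro x hx
    simp only [hS, hbox, Set.mem_preimage, Set.mem_pi, Set.mem_univ, true_implies, map_neg,
      Pi.neg_apply, Set.mem_Ioo] at hx ⊢
    intro i
    have := hx i
    constructor <;> linarith [this.1, this.2]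
  have hconv : Convex ℝ S := by
    refine Convex.linear_preimage ?_ f
    exact convex_pi fun i _ => convex_Ioo _ _
  have hlt : volume (ZSpan.fundamentalDomain b) * 2 ^ Module.finrank ℝ (Fin n → ℝ) <
      volume S := by
    rw [hF, one_mul, Module.finrank_fin_fun, hvol]
    have h1 : ∏ i, ENNReal.ofReal (2 * c i) = ENNReal.ofReal (2 ^ n * ∏ i, c i) := by
      rw [← ENNReal.ofReal_prod_of_nonneg (fun i _ => by have := hc i; positivity),
        Finset.prod_mul_distrib]
      simp
    have hd : 0 < |A.det| := abs_pos.2 hA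
    rw [h1, ← ENNReal.ofReal_mul (by positivity)]
    have h2 : (2 : ENNReal) ^ n = ENNReal.ofReal (2 ^ n) := by
      rw [ENNReal.ofReal_pow (by norm_num)]
      simp
    rw [h2]
    refine (ENNReal.ofReal_lt_ofReal_iff_of_nonneg (by positivity)).2 ?_
    rw [inv_mul_eq_div, lt_div_iff₀ hd]
    have : (0 : ℝ) < 2 ^ n := by positivity
    nlinarith
  obtain ⟨x, hx0, hx⟩ := exists_ne_zero_mem_lattice_of_measure_mul_two_pow_lt_measure
    (F := ZSpan.fundamentalDomain b) hfund hsymm hconv hlt
  have hxm : ((x : Fin n → ℝ)) ∈ Submodule.span ℤ (Set.range b) := x.2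
  rw [Module.Basis.mem_span_iff_repr_mem] at hxm
  choose y hy using hxm
  have hy' : ∀ i, (y i : ℝ) = (x : Fin n → ℝ) i := by
    intro i
    have h5 : ∀ v : Fin n → ℝ, b.repr v i = v i := fun v => by rw [hb, Pi.basisFun_repr]
    have h6 := hy i
    rw [h5] at h6
    exact h6
  refine ⟨y, ?_, ?_⟩
  · intro h0
    apply hx0
    apply Subtype.ext
    funext i
    rw [← hy' i, h0]
    simp
  · intro i
    have h3 : f (x : Fin n → ℝ) i ∈ Set.Ioo (-c i) (c i) := by
      have : f (x : Fin n → ℝ) ∈ box := hx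
      exact this i (Set.mem_univ i)
    have h4 : f (x : Fin n → ℝ) i = ∑ j, A i j * (y j : ℝ) := by
      rw [hf, Matrix.toLin'_apply, Matrix.mulVec, dotProduct]
      refine Finset.sum_congr rfl fun j _ => ?_
      rw [hy' j]
    rw [← h4, abs_lt]
    exact h3

end Pool.Agent.Helper73.TH
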